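import Mathlib
import Pool.Agent.X215.NonPoor

/-!
A free filter on the natural numbers which is neither poor nor conglomerated.
-/

namespace Pool.Agent.Results.MP_78c350_an.NeitherPoorNorCongl

open Pool.Agent.X215.StatFilters

/-- There is a free filter on `ℕ` that is neither poor nor conglomerated. -/
theorem result : ∃ 𝔉 : Filter ℕ, IsFree 𝔉 ∧ ¬ Poor 𝔉 ∧ ¬ Conglomerated 𝔉 :=
  Pool.Agent.X215.NonPoor.exists_filter

end Pool.Agent.Results.MP_78c350_an.NeitherPoorNorCongl
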